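import Pool.Agent.helper24.BR.SpecA

set_option autoImplicit false

namespace Pool.Agent.BR

open Pool.Agent.helper58.DC Pool.Agent.DI Pool.Agent.GR Pool.Agent.OB Pool.Agent.DR Pool.Agent.FI Pool.Agent.FI3 Pool.Agent.FI4 Pool.Agent.LE

theorem UPR_small_finsum {p : ℕ} {M : Ideal (integralClosure ℤ ℂ)} (hS : Setup p M) {r : ℕ} {ι : Type} [Finite ι]
    (f : ι → ℂ) (hf : ∀ i, Small p M r (f i)) : Small p M r (∑ᶠ i, f i) := by
  classical
  have := Fintype.ofFinite ι
  rw [finsum_eq_sum_of_fintype]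
  exact Small.sum hS _ fun i _ => hf i

/-- `ev` is additive -/
theorem UPR_ev_sub {G : Type} [Group G] [Finite G] (ψ a b : G → ℂ) (g : G) :
    ev ψ a g - ev ψ b g = ∑ᶠ x, (a x - b x) * ψ (g * x) := by
  classical
  have := Fintype.ofFinite G
  unfold ev
  rw [finsum_eq_sum_of_fintype, finsum_eq_sum_of_fintype, finsum_eq_sum_of_fintype, ← Finset.sum_sub_distrib]
  exact Finset.sum_congr rfl fun x _ => by ring

theorem UPR_ev_eS {G : Type} [Group G] [Finite G] (ψ : G → ℂ) (K : Subgroup G) (T : Set (G → ℂ)) (hT : T.Finite) (g : G) :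
    ev ψ (eS K T) g = ∑ᶠ η ∈ T, ev ψ (eS K {η}) g := by
  classical
  have := Fintype.ofFinite G
  rw [finsum_mem_eq_finite_toFinset_sum _ hT]
  have h1 : ∀ x, eS K T x = ∑ η ∈ hT.toFinset, eS K {η} x := by
    intro x
    unfold eS
    rw [finsum_mem_eq_finite_toFinset_sum _ hT, Finset.sum_div]
    refine Finset.sum_congr rfl fun η _ => ?_
    rw [finsum_mem_singleton]
  unfold ev
  rw [finsum_eq_sum_of_fintype]
  have h2 : ∀ x, eS K T x * ψ (g * x) = ∑ η ∈ hT.toFinset, eS K {η} x * ψ (g * x) := by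
    intro x
    rw [h1, Finset.sum_mul]
  rw [Finset.sum_congr rfl fun x _ => h2 x, Finset.sum_comm]
  refine Finset.sum_congr rfl fun η _ => ?_
  rw [finsum_eq_sum_of_fintype]

/-- the weights of characters of the same block -/
theorem UPR_Lam {G : Type} [Group G] (M : Ideal (integralClosure ℤ ℂ)) (D : Subgroup G) (θ : G → ℂ) (l : D →* ℂˣ)
    (K : Subgroup G) (u : G) (hK : K ≤ Cz (⊤ : Subgroup G) u) (η η' : G → ℂ) (h0 : ∀ x, x ∉ K → η x = 0)
    (h0' : ∀ x, x ∉ K → η' x = 0) (h : SB M K η η') : Lam M D θ l u η = Lam M D θ l u η' := by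
  have h1 : SB M (Cz (⊤ : Subgroup G) u) η η' := TRNb hK h0 h0' h
  have h2 : {t : G | SB M (Cz (⊤ : Subgroup G) u) η (cjF t⁻¹ θ)} = {t : G | SB M (Cz (⊤ : Subgroup G) u) η' (cjF t⁻¹ θ)} := by
    ext t
    exact ⟨fun h3 => h1.symm.trans h3, fun h3 => h1.trans h3⟩
  unfold Lam
  rw [h2]

theorem UPR (hPRD : PRD_stmt) (hEQR : EQR_stmt) (hBLE : BLE_stmt) (hREP : REP_stmt) (hLLI : LLI_stmt) (hEXB : EXB_stmt)
    (hCVF : CVF_stmt) : UPR_stmt := by
  intro p M hS G _ _ D x θ χ hLo l ψ hψ S S' hSS hp hab r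
  obtain ⟨K, hKd⟩ : ∃ K, K = cz S := ⟨_, rfl⟩
  obtain ⟨K', hKd'⟩ : ∃ K', K' = cz S' := ⟨_, rfl⟩
  have hKK : K' ≤ K := by
    rw [hKd, hKd']
    exact cz_mono hSS
  have hS'K : S' ≤ K := (le_cz_of_com hab).trans (by rw [← hKd']; exact hKK)
  have hint : K ⊓ cz S' = K' := by
    rw [← hKd']
    exact inf_eq_right.2 hKK
  rw [← hKd, ← hKd']
  obtain ⟨rp1, rp2, rp3, rp4, -⟩ := hREP p M hS G K
  have hpS : IsPGroup p S := hp.to_le hSS
  have habS : ∀ a ∈ S, ∀ b ∈ S, a * b = b * a := fun a ha b hb => hab a (hSS ha) b (hSS hb)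
  -- each block
  have key : ∀ e ∈ BB M K, ∃ N₀ : ℕ, ∀ N ≥ N₀, ∀ y, Small p M r (cvp (rsk K' e) (p ^ N) y - eS K' (Bq M K K' (rep M K e)) y) := by
    intro e he
    obtain ⟨he1, he2⟩ := rp2 e he
    obtain ⟨-, b2, b3, b4, -⟩ := hBLE p M hS G K K' hKK (rep M K e)
    have hE := hEQR p M hS G K K S' le_rfl hS'K hp hab (rep M K e)
    rw [hint] at hE
    have ha0 : ∀ y, y ∉ K' → rsk K' e y = 0 := by
      intro y hy
      unfold rsk
      rw [if_neg hy]
    refine PWL hPRD hS (rsk K' e) (eS K' (Bq M K K' (rep M K e))) b3 b4 ?_ ?_ r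
    · exact ((hCVF G).2.2.2.2.2.2.1 K' _ _ b2 ha0).symm
    · intro y
      by_cases hy : y ∈ K'
      · have h1 := hE y hy
        have h2 : eS K (BR M K (rep M K e) K) = e := he2
        rw [h2] at h1
        have h3 : rsk K' e y = e y := by
          unfold rsk
          rw [if_pos hy]
        rw [h3]
        exact h1
      · rw [ha0 y hy, b2.2 y hy, sub_zero]
        exact InM.zero hS
  choose! N₀ hN₀ using key
  obtain ⟨B, hB⟩ : ∃ B : ℕ, ∀ e ∈ BB M K, N₀ e ≤ B := by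
    obtain ⟨B, hB⟩ := (rp1.image N₀).bddAbove
    exact ⟨B, fun e he => hB ⟨e, he, rfl⟩⟩
  refine ⟨B, fun N hN u hu g => ?_⟩
  have hKu : K ≤ Cz (⊤ : Subgroup G) u := by
    intro y hy
    rw [mem_Cz]
    refine ⟨Subgroup.mem_top y, ?_⟩
    rw [hKd, Subgroup.mem_centralizer_iff] at hy
    exact hy u hu
  -- the sum over the blocks
  have hsum : ∑ᶠ η' ∈ IrrOn K', Lam M D θ l u η' * ev ψ (eS K' {η'}) g =
      ∑ᶠ e ∈ BB M K, Lam M D θ l u (rep M K e) * ev ψ (eS K' (Bq M K K' (rep M K e))) g := by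
    have hfin : ∀ e, (Bq M K K' (rep M K e)).Finite := fun e => (IrrOn_fin K').subset fun η hη => hη.1
    have hU : IrrOn K' = ⋃ e ∈ BB M K, Bq M K K' (rep M K e) := by
      ext η
      rw [Set.mem_iUnion₂]
      constructor
      · intro hη
        obtain ⟨φ, hφ, hφ'⟩ := hEXB p M hS G K S' hp hS'K η (by rw [hint]; exact hη)
        have he : eS K (Bl M K φ) ∈ BB M K := ⟨φ, hφ, rfl⟩
        obtain ⟨he1, he2⟩ := rp2 _ he
        exact ⟨_, he, hη, hφ'.trans ((rp3 _ he1 _ hφ).1 he2).symm⟩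
      · rintro ⟨e, -, hη, -⟩
        exact hη
    have hdis : (BB M K).PairwiseDisjoint fun e => Bq M K K' (rep M K e) := by
      intro e he e' he' hne
      rw [Function.onFun, Set.disjoint_left]
      intro η h1 h2
      apply hne
      obtain ⟨he1, he2⟩ := rp2 e he
      obtain ⟨he1', he2'⟩ := rp2 e' he'
      rw [← he2, ← he2']
      exact (rp3 _ he1 _ he1').2 (h1.2.symm.trans h2.2)
    rw [hU, finsum_mem_biUnion hdis rp1 fun e _ => hfin e]
    refine finsum_mem_congr rfl fun e he => ?_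
    obtain ⟨he1, -⟩ := rp2 e he
    rw [UPR_ev_eS ψ K' _ (hfin e) g, finsum_mem_eq_finite_toFinset_sum _ (hfin e), finsum_mem_eq_finite_toFinset_sum _ (hfin e),
      Finset.mul_sum]
    refine Finset.sum_congr rfl fun η hη' => ?_
    have hη : η ∈ Bq M K K' (rep M K e) := by simpa using hη'
    rw [UPR_Lam M D θ l K u hKu η (rep M K e) (fun y hy => IrrOn_zero hη.1 fun h => hy (hKK h)) (fun y hy => IrrOn_zero he1 hy) hη.2]
  rw [hsum]
  classical
  rw [finsum_mem_eq_finite_toFinset_sum _ rp1, finsum_mem_eq_finite_toFinset_sum _ rp1, ← Finset.sum_sub_distrib]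
  refine Small.sum hS _ fun e he' => ?_
  have he : e ∈ BB M K := by simpa using he'
  rw [← mul_sub]
  obtain ⟨he1, -⟩ := rp2 e he
  have hL : IntAt M (Lam M D θ l u (rep M K e)) := by
    have h1 : rep M K e ∈ IrrOn (cz S) := by
      rw [← hKd]
      exact he1
    exact (hLLI p M hS G D x θ χ hLo l S hpS habS (rep M K e) h1).1 u hu
  refine Small.mul_left hS hL ?_
  rw [UPR_ev_sub]
  refine UPR_small_finsum hS _ fun y => ?_
  rw [mul_comm]
  exact Small.mul_left hS (IntAt.of_isIntegral hS (IrrOn_int hψ _)) (hN₀ e he N ((hB e he).trans hN) y)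

end Pool.Agent.BR
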